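import Mathlib
import Pool.Agent.R389.SmallMain
import Pool.Agent.R389.TwoMain
import Pool.Agent.R389.NewMain
import Pool.Agent.R389.Simple
import Pool.Agent.N855.AF.Main

/-!
# Deligne's conjecture for Artin twists: the characters which are nontrivial on a rigid normal subgroup
-/

set_option autoImplicit false
set_option linter.unusedSectionVars false

namespace Pool.Agent.U157.DL

open Pool.Agent.R389 Pool.Agent.H302R2 Pool.Agent.H302R3 Pool.Agent.H541R3.ART Pool.Agent.W446.AS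
  Filter Topology

variable {G : Type} [Group G] [Finite G] {E : Type} [Field E]
  {L : (E →+* ℂ) → (G → ℂ) → ℂ → ℂ} {P : (E →+* ℂ) → (G → ℂ) → ℂ} {c : ℂ}

/-- the function of the orders is constant on a rigid subgroup -/
theorem theta_const {ζ : E} (hζ : IsPrimitiveRoot ζ (Monoid.exponent G))
    (hL : ∀ τ, ∀ χ ∈ Irr G, MeromorphicAt (L τ χ) c ∧ meromorphicOrderAt (L τ χ) c ≠ ⊤)
    (hmon : ∀ (U : Subgroup G) (ψ : U →* Eˣ),
      Deligne L P c (ind U (fun u => ((ψ u : Eˣ) : E)))) (τ₀ : E →+* ℂ)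
    {deg : (G → ℂ) → ℕ} (hdeg : ∀ χ ∈ Irr G, χ 1 = deg χ) {r : ℕ}
    (hr : meromorphicOrderAt (fun s => ∏ᶠ χ ∈ Irr G, L τ₀ χ s ^ deg χ) c ≤ (r : WithTop ℤ))
    (N : Subgroup G) (hN : Pool.Agent.Y788.V.RigidV r N) :
    ∀ k ∈ N, (theta (ords (L τ₀) c) : G → ℂ) k = (theta (ords (L τ₀) c) : G → ℂ) 1 := by
  have hθ := heil_ords hζ hL hmon τ₀
  have htop := top_order (hL τ₀) deg
  have hone := theta_one_eq (c := c) (l := L τ₀) hdeg
  obtain ⟨s, hs⟩ := hθ.exists_deg
  have h1 : (∑ χ ∈ irrF G, (deg χ : ℤ) * ords (L τ₀) c χ) = (s : ℤ) := by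
    rw [hone] at hs
    exact_mod_cast hs
  rw [htop, h1] at hr
  have h2 : s ≤ r := by exact_mod_cast hr
  intro k hk
  have h3 := hN _ (hθ.comp N.subtype) ((theta_virt _).comp N.subtype) s h2 (by simpa using hs)
    ⟨k, hk⟩
  simpa using h3

/-- the invariants of a normal subgroup in a character -/
lemma inv_mem (K : Subgroup G) [K.Normal] (hQ : AN (G ⧸ K)) {f : G → ℂ}
    (hf : f ∈ AddSubmonoid.closure (Irr G)) : inv K f ∈ MonPA G := by
  classical
  induction hf using AddSubmonoid.closure_induction with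
  | zero =>
    rw [← invHom_apply, map_zero]
    exact zero_mem _
  | add a b _ _ ha hb =>
    have h3 : inv K (a + b) = inv K a + inv K b := map_add (invHom K) a b
    rw [h3]
    exact add_mem ha hb
  | mem χ hχ =>
    rcases irr_inv K hχ with h | ⟨-, h⟩
    · have h1 := inv_of_const K h
      rw [h1]
      obtain ⟨d, hd, hd1⟩ := irr_deg_pos hχ
      have h2 : inv K χ ≠ 0 := by
        rw [h1]
        intro h0
        have h3 := congrFun h0 1
        rw [hd1] at h3
        have h4 : (d : ℂ) = 0 := h3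
        have : d = 0 := by exact_mod_cast h4
        omega
      obtain ⟨U, ψ, hU⟩ := mono_of_quot K hQ hχ h2
      exact AddSubmonoid.subset_closure ⟨U, ψ, hU⟩
    · rw [h]
      exact zero_mem _

/-- representations of an abelian-by-nilpotent quotient -/
theorem old_deligne {ζ : E} (hζ : IsPrimitiveRoot ζ (Monoid.exponent G))
    (hL : ∀ τ, ∀ χ ∈ Irr G, MeromorphicAt (L τ χ) c ∧ meromorphicOrderAt (L τ χ) c ≠ ⊤)
    (hP : ∀ τ, ∀ χ ∈ Irr G, P τ χ ≠ 0)
    (hmon : ∀ (U : Subgroup G) (ψ : U →* Eˣ),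
      Deligne L P c (ind U (fun u => ((ψ u : Eˣ) : E)))) (τ₀ : E →+* ℂ)
    (K : Subgroup G) [K.Normal] (hQ : AN (G ⧸ K))
    {V : Type} [AddCommGroup V] [Module E V] [FiniteDimensional E V] (ρ : Representation E G V)
    (hρ : ∀ k ∈ K, ∀ v, ρ k v = v) : Deligne L P c ρ.character := by
  classical
  have h1 := inv_mem K hQ (base_change τ₀ ρ)
  have h2 : inv K (fun g => τ₀ (ρ.character g)) = fun g => τ₀ (ρ.character g) := by
    refine inv_of_const K fun g k hk => ?_
    have h3 : ρ k = 1 := LinearMap.ext fun v => hρ k hk v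
    change τ₀ (LinearMap.trace E V (ρ (g * k))) = τ₀ (LinearMap.trace E V (ρ g))
    rw [map_mul, h3, mul_one]
  rw [h2] at h1
  obtain ⟨fa, ea, ha1, ha2⟩ := monA_del hζ hL hP hmon τ₀ h1
  have h4 : ρ.character = fa := by
    funext g
    exact τ₀.injective (ha1 g).symm
  rw [h4]
  exact ha2.deligne

/-- **The characters without invariants.** -/
theorem new_deligne {ζ : E} (hζ : IsPrimitiveRoot ζ (Monoid.exponent G))
    (hL : ∀ τ, ∀ χ ∈ Irr G, MeromorphicAt (L τ χ) c ∧ meromorphicOrderAt (L τ χ) c ≠ ⊤)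
    (hP : ∀ τ, ∀ χ ∈ Irr G, P τ χ ≠ 0)
    (hmon : ∀ (U : Subgroup G) (ψ : U →* Eˣ),
      Deligne L P c (ind U (fun u => ((ψ u : Eˣ) : E)))) (τ₀ : E →+* ℂ)
    (K : Subgroup G) [K.Normal]
    (hK : ∀ k ∈ K, (theta (ords (L τ₀) c) : G → ℂ) k = (theta (ords (L τ₀) c) : G → ℂ) 1)
    {V : Type} [AddCommGroup V] [Module E V] [FiniteDimensional E V] (ρ : Representation E G V)
    (hρ : ∀ v, (∀ k ∈ K, ρ k v = v) → v = 0) :
    ∃ e : E, e ≠ 0 ∧ ∀ (τ : E →+* ℂ) (m : (G → ℂ) → ℕ),
      IsDecomp (fun g => τ (ρ.character g)) m →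
      Tendsto (fun s => ∏ᶠ χ ∈ Irr G, L τ χ s ^ m χ) (𝓝[≠] c)
        (𝓝 (τ e * ∏ᶠ χ ∈ Irr G, P τ χ ^ m χ)) := by
  classical
  have : Fintype K := Fintype.ofFinite K
  have hb := base_change τ₀ ρ
  -- the averaging operator vanishes
  have hav : ∀ g : G, ∑ k : K, ρ (g * k) = 0 := by
    intro g
    refine LinearMap.ext fun v => ?_
    have h1 : ∑ k : K, ρ k v = 0 := by
      refine hρ _ fun h hh => ?_
      rw [map_sum]
      refine Fintype.sum_equiv (Equiv.mulLeft (⟨h, hh⟩ : K)) _ _ fun k => ?_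
      change ρ h (ρ k v) = ρ ((h : G) * (k : G)) v
      rw [map_mul]
      rfl
    have h2 : ∀ k : K, ρ (g * k) v = ρ g (ρ k v) := fun k => by
      rw [map_mul]
      rfl
    rw [LinearMap.sum_apply, Finset.sum_congr rfl (fun k _ => h2 k), ← map_sum, h1, map_zero]
    rfl
  have h0 : inv K (fun g => τ₀ (ρ.character g)) = 0 := by
    funext g
    rw [inv_eq]
    have h1 : ∑ k : K, τ₀ (ρ.character (g * k)) = 0 := by
      rw [← map_sum]
      have h2 : ∑ k : K, ρ.character (g * k) = LinearMap.trace E V (∑ k : K, ρ (g * k)) := by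
        rw [map_sum]
        rfl
      rw [h2, hav g, map_zero, map_zero]
    rw [h1, mul_zero]
    rfl
  have hVirt : Virt (fun g => τ₀ (ρ.character g)) := by
    have h3 : AddSubmonoid.closure (Irr G) ≤ (AddSubgroup.closure (Irr G)).toAddSubmonoid := by
      rw [AddSubmonoid.closure_le]
      exact AddSubgroup.subset_closure
    exact h3 hb
  have h1 := relative_brauer K hVirt h0
  have h2 := new_twistT K 1 h1
  have hback : twHom 1 (fun g => τ₀ (ρ.character g)) = fun g => τ₀ (ρ.character g) := by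
    funext g
    change τ₀ (ρ.character g) * (((1 : G →* ℂˣ) g : ℂˣ) : ℂ) = τ₀ (ρ.character g)
    simp
  rw [AddSubgroup.mem_comap, hback] at h2
  obtain ⟨f, e, hf, he0, hfe⟩ := new_unitT hζ hL hP (fun U ψ _ => hmon U ψ) τ₀ (lam := 1)
    (fun k hk => by rw [hK k hk]; simp) h2
  have h3 : ρ.character = f := by
    funext g
    exact τ₀.injective (hf g).symm
  rw [h3]
  exact ⟨e, he0, fun τ m hm => hfe.spec τ m hm⟩

/-- **All twists from those of the quotient.** -/
theorem all_deligne {ζ : E} (hζ : IsPrimitiveRoot ζ (Monoid.exponent G))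
    (hL : ∀ τ, ∀ χ ∈ Irr G, MeromorphicAt (L τ χ) c ∧ meromorphicOrderAt (L τ χ) c ≠ ⊤)
    (hP : ∀ τ, ∀ χ ∈ Irr G, P τ χ ≠ 0)
    (hmon : ∀ (U : Subgroup G) (ψ : U →* Eˣ),
      Deligne L P c (ind U (fun u => ((ψ u : Eˣ) : E)))) (τ₀ : E →+* ℂ)
    (K : Subgroup G) [K.Normal]
    (hK : ∀ k ∈ K, (theta (ords (L τ₀) c) : G → ℂ) k = (theta (ords (L τ₀) c) : G → ℂ) 1)
    (hold : ∀ (W : Type) [AddCommGroup W] [Module E W] [FiniteDimensional E W]
      (σ : Representation E G W), (∀ k ∈ K, ∀ w, σ k w = w) → Deligne L P c σ.character)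
    {V : Type} [AddCommGroup V] [Module E V] [FiniteDimensional E V] (ρ : Representation E G V) :
    Deligne L P c ρ.character := by
  refine main_grow' hζ hL hP (fun U ψ _ => hmon U ψ) τ₀ K 1 ?_ ?_ ρ
  · intro W _ _ _ σ hσ
    exact hold W σ (fun k hk w => by have := hσ k hk w; simpa using this)
  · intro k hk
    rw [hK k hk]
    simp

/-- alternating groups are rigid -/
lemma alt_rigid {n j r : ℕ} (hn : 5 ≤ n) (hj : 2 ≤ j) (hlt : r < (2 ^ j - 1) * (n / 2 ^ j)) :
    Pool.Agent.Y788.V.RigidV r (alternatingGroup (Fin n)) := by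
  intro η hη _ s hs hs1 t
  exact alt_core hn hj hη hs1 (lt_of_le_of_lt hs hlt) t

/-- subgroups of the symmetric group which contain the alternating group -/
lemma sym_setup {n j r : ℕ} (hn : 5 ≤ n) (hj : 2 ≤ j) (hlt : r < (2 ^ j - 1) * (n / 2 ^ j))
    (f : G →* Equiv.Perm (Fin n)) (hf : Function.Injective f)
    (hA : alternatingGroup (Fin n) ≤ f.range) :
    ((alternatingGroup (Fin n)).comap f).Normal ∧
    Pool.Agent.Y788.V.RigidV r ((alternatingGroup (Fin n)).comap f) ∧
    ∀ _ : ((alternatingGroup (Fin n)).comap f).Normal,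
      AN (G ⧸ (alternatingGroup (Fin n)).comap f) := by
  classical
  have hnor : ((alternatingGroup (Fin n)).comap f).Normal := inferInstance
  refine ⟨hnor, ?_, fun h => ?_⟩
  · let q : (alternatingGroup (Fin n)).comap f →* alternatingGroup (Fin n) :=
      { toFun := fun u => ⟨f u, u.2⟩
        map_one' := Subtype.ext (map_one f)
        map_mul' := fun a b => Subtype.ext (map_mul f _ _) }
    have hq : Function.Bijective q := by
      constructor
      · intro a b hab
        exact Subtype.ext (hf (congrArg Subtype.val hab))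
      · rintro ⟨y, hy⟩
        obtain ⟨g, rfl⟩ := hA hy
        exact ⟨⟨g, hy⟩, rfl⟩
    exact (alt_rigid hn hj hlt).congr (MulEquiv.ofBijective q hq).symm
  · refine an_of_comm ?_
    intro a b
    obtain ⟨x, rfl⟩ := QuotientGroup.mk_surjective a
    obtain ⟨y, rfl⟩ := QuotientGroup.mk_surjective b
    rw [← QuotientGroup.mk_mul, ← QuotientGroup.mk_mul, QuotientGroup.eq]
    rw [Subgroup.mem_comap, Equiv.Perm.mem_alternatingGroup, map_mul, map_inv, map_mul, map_mul,
      map_mul, map_inv, map_mul, map_mul]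
    rw [mul_comm (Equiv.Perm.sign (f y))]
    exact inv_mul_cancel _

end Pool.Agent.U157.DL
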