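import Mathlib
import Pool.Agent.U157.DL.Rig

/-!
# Deligne's conjecture for Artin twists with zeros and poles of any order
-/

set_option autoImplicit false
set_option linter.unusedSectionVars false

namespace Pool.Agent.U157.DL

open Pool.Agent.R389 Pool.Agent.H302R2 Pool.Agent.H302R3 Pool.Agent.H541R3.ART Pool.Agent.W446.AS
  Filter Topology

section groups

lemma an_prod {V W : Type} [Group V] [Group W] (hV : AN V) (hW : AN W) : AN (V × W) := by
  obtain ⟨A, hA, hAc, hAn⟩ := hV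
  obtain ⟨B, hB, hBc, hBn⟩ := hW
  have hP : (A.prod B).Normal := Subgroup.prod_normal A B
  refine ⟨A.prod B, hP, ?_, ?_⟩
  · rintro ⟨⟨a, b⟩, ha, hb⟩ ⟨⟨a', b'⟩, ha', hb'⟩
    apply Subtype.ext
    have h1 := congrArg Subtype.val (hAc ⟨a, ha⟩ ⟨a', ha'⟩)
    have h2 := congrArg Subtype.val (hBc ⟨b, hb⟩ ⟨b', hb'⟩)
    exact Prod.ext h1 h2
  · let q : V × W →* (V ⧸ A) × (W ⧸ B) :=
      MonoidHom.prodMap (QuotientGroup.mk' A) (QuotientGroup.mk' B)
    have hq : q.ker = A.prod B := by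
      ext ⟨a, b⟩
      rw [MonoidHom.mem_ker, Subgroup.mem_prod]
      change ((QuotientGroup.mk a : V ⧸ A), (QuotientGroup.mk b : W ⧸ B)) = 1 ↔ _
      rw [Prod.mk_eq_one, QuotientGroup.eq_one_iff, QuotientGroup.eq_one_iff]
    have hn : Group.IsNilpotent ((V ⧸ A) × (W ⧸ B)) := inferInstance
    refine nil_of_injective (QuotientGroup.lift (A.prod B) q (fun x hx => by
      rw [← hq] at hx
      exact hx)) ?_ hn
    rw [← MonoidHom.ker_eq_bot_iff, eq_bot_iff]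
    intro y hy
    obtain ⟨x, rfl⟩ := QuotientGroup.mk_surjective y
    rw [MonoidHom.mem_ker] at hy
    have h1 : q x = 1 := hy
    rw [Subgroup.mem_bot]
    refine (QuotientGroup.eq_one_iff x).mpr ?_
    rw [← hq]
    exact h1

variable {G : Type} [Group G]

lemma an_inf {K₁ K₂ : Subgroup G} [K₁.Normal] [K₂.Normal] (h₁ : AN (G ⧸ K₁)) (h₂ : AN (G ⧸ K₂)) :
    AN (G ⧸ (K₁ ⊓ K₂)) := by
  let q : G →* (G ⧸ K₁) × (G ⧸ K₂) := (QuotientGroup.mk' K₁).prod (QuotientGroup.mk' K₂)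
  have hq : q.ker = K₁ ⊓ K₂ := by
    ext x
    rw [MonoidHom.mem_ker, Subgroup.mem_inf]
    change ((QuotientGroup.mk x : G ⧸ K₁), (QuotientGroup.mk x : G ⧸ K₂)) = 1 ↔ _
    rw [Prod.mk_eq_one, QuotientGroup.eq_one_iff, QuotientGroup.eq_one_iff]
  refine AN.of_injective (QuotientGroup.lift (K₁ ⊓ K₂) q (fun x hx => by
      rw [← hq] at hx
      exact hx)) ?_ (an_prod h₁ h₂)
  rw [← MonoidHom.ker_eq_bot_iff, eq_bot_iff]
  intro y hy
  obtain ⟨x, rfl⟩ := QuotientGroup.mk_surjective y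
  rw [MonoidHom.mem_ker] at hy
  have h1 : q x = 1 := hy
  rw [Subgroup.mem_bot]
  refine (QuotientGroup.eq_one_iff x).mpr ?_
  rw [← hq]
  exact h1

lemma an_top : AN (G ⧸ (⊤ : Subgroup G)) := by
  refine an_of_comm fun a b => ?_
  obtain ⟨x, rfl⟩ := QuotientGroup.mk_surjective a
  obtain ⟨y, rfl⟩ := QuotientGroup.mk_surjective b
  rw [← QuotientGroup.mk_mul, ← QuotientGroup.mk_mul, QuotientGroup.eq]
  exact Subgroup.mem_top _

/-- the quotient by the commutator group of a normal subgroup with nilpotent quotient -/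
lemma an_comm (H : Subgroup G) [H.Normal] (hn : Group.IsNilpotent (G ⧸ H)) : AN (G ⧸ ⁅H, H⁆) := by
  let π : G →* G ⧸ ⁅H, H⁆ := QuotientGroup.mk' ⁅H, H⁆
  have hπ : Function.Surjective π := QuotientGroup.mk'_surjective _
  have hN : (H.map π).Normal := Subgroup.Normal.map inferInstance π hπ
  refine ⟨H.map π, hN, ?_, ?_⟩
  · rintro ⟨_, x, hx, rfl⟩ ⟨_, y, hy, rfl⟩
    apply Subtype.ext
    change π x * π y = π y * π x
    rw [← map_mul, ← map_mul]
    change (QuotientGroup.mk (x * y) : G ⧸ ⁅H, H⁆) = QuotientGroup.mk (y * x)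
    rw [QuotientGroup.eq]
    have h1 := Subgroup.commutator_mem_commutator (H.inv_mem hy) (H.inv_mem hx)
    rw [commutatorElement_def] at h1
    have h2 : (x * y)⁻¹ * (y * x) = y⁻¹ * x⁻¹ * y⁻¹⁻¹ * x⁻¹⁻¹ := by group
    rw [h2]
    exact h1
  · refine Group.nilpotent_of_surjective (QuotientGroup.map H (H.map π) π
      (Subgroup.le_comap_map π H)) ?_
    intro y
    obtain ⟨z, rfl⟩ := QuotientGroup.mk_surjective y
    obtain ⟨x, rfl⟩ := hπ z
    exact ⟨QuotientGroup.mk x, rfl⟩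

end groups

variable {G : Type} [Group G] [Finite G]

/-- an induced character is trivial on the commutator group of a normal subgroup -/
lemma ind_comm (H : Subgroup G) [hH : H.Normal] (lam : H →* ℂˣ) {k : G} (hk : k ∈ ⁅H, H⁆) :
    ind H (fun h => ((lam h : ℂˣ) : ℂ)) k = ind H (fun h => ((lam h : ℂˣ) : ℂ)) 1 := by
  classical
  have hle : ⁅H, H⁆ ≤ H := Subgroup.commutator_le_right H H
  have hlam : ∀ z : G, ∀ hz : z ∈ ⁅H, H⁆, lam ⟨z, hle hz⟩ = 1 := by
    intro z hz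
    have h1 : (⟨z, hle hz⟩ : H) ∈ commutator H := by
      have h2 : (commutator H).map H.subtype = ⁅H, H⁆ := by
        rw [commutator_def, Subgroup.map_commutator, ← MonoidHom.range_eq_map, Subgroup.range_subtype]
      rw [← h2] at hz
      obtain ⟨w, hw, hwz⟩ := hz
      have h3 : w = ⟨z, hle (h2 ▸ ⟨w, hw, hwz⟩)⟩ := Subtype.ext hwz
      rw [← h3]
      exact hw
    exact (Abelianization.commutator_subset_ker lam) h1
  unfold ind
  congr 1
  refine finsum_congr fun x => ?_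
  have h1 : x⁻¹ * k * x ∈ ⁅H, H⁆ := by
    have h2 := (inferInstance : (⁅H, H⁆ : Subgroup G).Normal).conj_mem k hk x⁻¹
    rwa [inv_inv] at h2
  have h3 : x⁻¹ * 1 * x = 1 := by group
  rw [h3]
  unfold ext
  rw [dif_pos (hle h1), dif_pos H.one_mem]
  have h4 : lam ⟨1, H.one_mem⟩ = 1 := map_one lam
  change ((lam ⟨x⁻¹ * k * x, hle h1⟩ : ℂˣ) : ℂ) = ((lam ⟨1, H.one_mem⟩ : ℂˣ) : ℂ)
  rw [h4, hlam _ h1]

/-- the function of the orders and a common kernel of the characters with a zero or a pole -/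
theorem theta_of_kernel {l : (G → ℂ) → ℂ → ℂ} {c : ℂ} (K : Subgroup G)
    (h : ∀ χ ∈ Irr G, meromorphicOrderAt (l χ) c ≠ 0 → ∀ k ∈ K, χ k = χ 1) :
    ∀ k ∈ K, (theta (ords l c) : G → ℂ) k = (theta (ords l c) : G → ℂ) 1 := by
  intro k hk
  unfold theta
  refine Finset.sum_congr rfl fun χ hχ => ?_
  by_cases h0 : meromorphicOrderAt (l χ) c = 0
  · have h1 : ords l c χ = 0 := by
      unfold ords
      rw [h0]
      rfl
    rw [h1]
    simp
  · rw [h χ (mem_irrF.mp hχ) h0 k hk]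

/-- characters of small degree are trivial on rigid subgroups -/
lemma small_trivial {r : ℕ} (N : Subgroup G) (hN : Pool.Agent.Y788.V.RigidV r N) {χ : G → ℂ}
    (hχ : χ ∈ Irr G) {d : ℕ} (hd : χ 1 = d) (hdr : d ≤ r) : ∀ k ∈ N, χ k = χ 1 := by
  intro k hk
  obtain ⟨n, ρ, -, rfl⟩ := exists_rep hχ
  have hv : Virt ρ.character := char_mem _ ρ rfl
  have h1 := hN _ ((Pool.Agent.Y788.rep_heilbronn ρ).comp N.subtype)
    (hv.comp N.subtype) d hdr (by simpa using hd) ⟨k, hk⟩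
  simpa using h1

open Classical in
/-- a common kernel with abelian-by-nilpotent quotient -/
lemma exists_kernel {Z : (G → ℂ) → Prop}
    (h : ∀ χ ∈ Irr G, Z χ → ∃ (K : Subgroup G) (_ : K.Normal), (∀ k ∈ K, χ k = χ 1) ∧ AN (G ⧸ K)) :
    ∃ (K : Subgroup G) (_ : K.Normal), (∀ χ ∈ Irr G, Z χ → ∀ k ∈ K, χ k = χ 1) ∧ AN (G ⧸ K) := by
  have h1 : ∀ S : Finset (G → ℂ), (∀ χ ∈ S, χ ∈ Irr G ∧ Z χ) →
      ∃ (K : Subgroup G) (_ : K.Normal), (∀ χ ∈ S, ∀ k ∈ K, χ k = χ 1) ∧ AN (G ⧸ K) := by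
    intro S
    induction S using Finset.induction_on with
    | empty => exact fun _ => ⟨⊤, inferInstance, by simp, an_top⟩
    | insert χ S hχ ih =>
      intro hS
      obtain ⟨K, hKn, hK, hKa⟩ := ih (fun ψ hψ => hS ψ (Finset.mem_insert_of_mem hψ))
      obtain ⟨h2, h3⟩ := hS χ (Finset.mem_insert_self _ _)
      obtain ⟨K', hKn', hK', hKa'⟩ := h χ h2 h3
      refine ⟨K ⊓ K', inferInstance, ?_, an_inf hKa hKa'⟩
      intro ψ hψ k hk
      rcases Finset.mem_insert.mp hψ with rfl | hψ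
      · exact hK' k (Subgroup.mem_inf.mp hk).2
      · exact hK ψ hψ k (Subgroup.mem_inf.mp hk).1
  obtain ⟨K, hKn, hK, hKa⟩ := h1 ((irrF G).filter Z) (fun χ hχ => by
    rw [Finset.mem_filter] at hχ
    exact ⟨mem_irrF.mp hχ.1, hχ.2⟩)
  exact ⟨K, hKn, fun χ hχ hZ => hK χ (Finset.mem_filter.mpr ⟨mem_irrF.mpr hχ, hZ⟩), hKa⟩

end Pool.Agent.U157.DL
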