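import Mathlib
import Pool.Agent.R389.RatMain2
import Pool.Agent.U157.DL.Any

/-!
# Deligne's conjecture for rational Artin twists when the orders have a common divisor
-/

set_option autoImplicit false
set_option linter.unusedSectionVars false

namespace Pool.Agent.U157.DL

open Pool.Agent.R389 Pool.Agent.H302R2 Pool.Agent.H302R3 Pool.Agent.H541R3.ART Pool.Agent.W446.AS
  Filter Topology

variable {G : Type} [Group G] [Finite G]

/-- Heilbronn functions have nonnegative multiplicities against monomial characters -/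
lemma heil_hh {η : G → ℂ} (h : IsHeilbronn η) : HH η where
  conj := h.conj
  nat U ψ _ := by
    classical
    have : Fintype U := Fintype.ofFinite U
    obtain ⟨n, hn⟩ := h.mult U ψ
    refine ⟨n, ?_⟩
    rw [frob' U _ h.conj, pr_eq]
    rw [finsum_eq_sum_of_fintype] at hn
    have h2 : ∀ h : U, ((ψ h⁻¹ : ℂˣ) : ℂ) = (((ψ h)⁻¹ : ℂˣ) : ℂ) := by
      intro h
      rw [map_inv]
    simp only [h2]
    rw [hn]
    have h3 : (Nat.card U : ℂ) ≠ 0 := card_ne
    field_simp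

lemma pr_mul_left (d : ℂ) (η f : G → ℂ) : pr (fun g => d * η g) f = d * pr η f := by
  classical
  have : Fintype G := Fintype.ofFinite G
  rw [pr_eq, pr_eq, Finset.mul_sum, Finset.mul_sum, Finset.mul_sum]
  refine Finset.sum_congr rfl fun g _ => ?_
  ring

/-- a quotient of a Heilbronn function by a positive integer, if it is a virtual character -/
lemma heil_div {θ η : G → ℂ} (hθ : IsHeilbronn θ) (hη : Virt η) {d : ℕ} (hd : d ≠ 0)
    (h : ∀ g, θ g = d * η g) : IsHeilbronn η where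
  conj := hη.conj
  mult H χ := by
    classical
    have : Fintype H := Fintype.ofFinite H
    obtain ⟨n, hn⟩ := hθ.mult H χ
    obtain ⟨k, hk⟩ := Pool.Agent.R389.Virt.pr_int' (hη.comp H.subtype)
      (η := fun h : H => ((χ h : ℂˣ) : ℂ)) (AddSubgroup.subset_closure (lin_irr χ))
    have h3 : (Nat.card H : ℂ) ≠ 0 := card_ne
    have h1 : ∑ h : H, η h * (((χ h)⁻¹ : ℂˣ) : ℂ) = k * Nat.card H := by
      rw [pr_eq] at hk
      have h2 : ∀ h : H, ((χ h⁻¹ : ℂˣ) : ℂ) = (((χ h)⁻¹ : ℂˣ) : ℂ) := by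
        intro h
        rw [map_inv]
      simp only [h2] at hk
      change (Nat.card H : ℂ)⁻¹ * ∑ h : H, η h * (((χ h)⁻¹ : ℂˣ) : ℂ) = k at hk
      rw [← hk]
      field_simp
    have h4 : (d : ℂ) * k = n := by
      rw [finsum_eq_sum_of_fintype] at hn
      have h5 : ∑ x : H, θ x * (((χ x)⁻¹ : ℂˣ) : ℂ) = d * (k * Nat.card H) := by
        rw [← h1, Finset.mul_sum]
        refine Finset.sum_congr rfl fun x _ => ?_
        rw [h, mul_assoc]
      rw [h5, ← mul_assoc] at hn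
      exact mul_right_cancel₀ h3 hn
    have h5 : (d : ℤ) * k = n := by exact_mod_cast h4
    have h6 : 0 ≤ k := by
      by_contra hcon
      push Not at hcon
      have h7 : (0 : ℤ) < d := by exact_mod_cast Nat.pos_of_ne_zero hd
      nlinarith
    obtain ⟨m, rfl⟩ := Int.eq_ofNat_of_zero_le h6
    refine ⟨m, ?_⟩
    rw [finsum_eq_sum_of_fintype, h1]
    simp

lemma good_div {θ η : G → ℂ} {d : ℕ} (h : ∀ g, θ g = d * η g) : Good η ≤ Good θ := by
  unfold Good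
  refine AddSubgroup.closure_mono ?_
  rintro f ⟨U, ψ, hU, hf, h0⟩
  refine ⟨U, ψ, hU, hf, ?_⟩
  have h1 : θ = fun g => (d : ℂ) * η g := funext h
  rw [h1, pr_mul_left, h0, mul_zero]

variable {E : Type} [Field E]
  {ℓ : (G → ℂ) → ℂ → ℂ} {P : (E →+* ℂ) → (G → ℂ) → ℂ} {c : ℂ}

/-- **Rational coefficients, orders with a common divisor.** -/
theorem main_rat_div [NumberField E] {ζ : E} (hζ : IsPrimitiveRoot ζ (Monoid.exponent G))
    (hL : ∀ χ ∈ Irr G, MeromorphicAt (ℓ χ) c ∧ meromorphicOrderAt (ℓ χ) c ≠ ⊤)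
    (hP : ∀ τ, ∀ χ ∈ Irr G, P τ χ ≠ 0)
    (hmon : ∀ (U : Subgroup G) (ψ : U →* Eˣ),
      Deligne (fun _ => ℓ) P c (ind U (fun u => ((ψ u : Eˣ) : E))))
    {η : G → ℂ} (hV : Virt η) {d : ℕ} (hd : d ≠ 0)
    (hη : ∀ g, (theta (ords ℓ c) : G → ℂ) g = d * η g)
    {r : ℕ} (hr : η 1 = r) (hr2 : r ≤ 2)
    {V : Type} [AddCommGroup V] [Module ℚ V] [FiniteDimensional ℚ V] (ρ : Representation ℚ G V)
    {m : (G → ℂ) → ℕ} (hm : IsDecomp (cch ρ) m)
    (hpole : 0 ≤ meromorphicOrderAt (fun s => ∏ᶠ χ ∈ Irr G, ℓ χ s ^ m χ) c) :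
    Deligne (fun _ => ℓ) P c (fun g => algebraMap ℚ E (ρ.character g)) := by
  classical
  obtain ⟨τ₀⟩ : Nonempty (E →+* ℂ) := inferInstance
  have hL' : ∀ τ : E →+* ℂ, ∀ χ ∈ Irr G, MeromorphicAt ((fun _ : E →+* ℂ => ℓ) τ χ) c ∧
      meromorphicOrderAt ((fun _ : E →+* ℂ => ℓ) τ χ) c ≠ ⊤ := fun _ => hL
  have hmon' : ∀ (U : Subgroup G) (ψ : U →* Eˣ), Hyper U →
      Deligne (fun _ => ℓ) P c (ind U (fun u => ((ψ u : Eˣ) : E))) := fun U ψ _ => hmon U ψ
  have hF : (fun g => τ₀ (algebraMap ℚ E (ρ.character g))) = cch ρ := by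
    funext g
    rw [eq_ratCast, map_ratCast]
    rfl
  have hb : (fun g => τ₀ (algebraMap ℚ E (ρ.character g))) ∈ AddSubmonoid.closure (Irr G) := by
    rw [hF]; exact cch_mem ρ
  have hθH : IsHeilbronn (theta (ords ℓ c) : G → ℂ) := heil_ords hζ hL' hmon τ₀
  have hηH : IsHeilbronn η := heil_div hθH hV hd hη
  have hηh : HH η := heil_hh hηH
  have hgood : Good η ≤ Good (theta (ords ℓ c) : G → ℂ) := good_div hη
  have hθe : (theta (ords ℓ c) : G → ℂ) = fun g => (d : ℂ) * η g := funext hη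
  have hdC : (d : ℂ) ≠ 0 := by exact_mod_cast hd
  by_cases hr1 : r ≤ 1
  · obtain ⟨lam, hlam⟩ := hηh.deg_le_one hV hr hr1
    refine old_main' hζ hL' hP hmon' τ₀ Nat.prime_two ⊤ top_pgroup lam (fun k _ => ?_) hb
    rw [hη, hη, hlam k]
    ring
  have hr' : η 1 = 2 := by
    have : r = 2 := by omega
    rw [hr, this]; norm_num
  -- the split case
  have hsplit : Split η → Deligne (fun _ => ℓ) P c (fun g => algebraMap ℚ E (ρ.character g)) := by
    rintro ⟨l₁, l₂, hs⟩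
    by_cases hl : l₁ = l₂
    · refine old_main' hζ hL' hP hmon' τ₀ Nat.prime_two ⊤ top_pgroup l₁ (fun k _ => ?_) hb
      rw [hη, hη, hs k, hr', hl]; ring
    · obtain ⟨Z, hZ, h2⟩ := split_decomp hηh hs hl
      obtain ⟨k₁, k₂, h3, h4, h5⟩ := h2 _ (virt_of_closure hb)
      obtain ⟨n₁, hn₁⟩ := nat_lin hb l₁
      obtain ⟨n₂, hn₂⟩ := nat_lin hb l₂
      have e1 : k₁ = n₁ := by
        rw [hn₁] at h3; exact_mod_cast h3.symm
      have e2 : k₂ = n₂ := by
        rw [hn₂] at h4; exact_mod_cast h4.symm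
      rw [e1, e2, natCast_zsmul, natCast_zsmul] at h5
      exact finish hζ hL' hP hmon' τ₀ (add_mem (nsmul_mem (mono_memP hZ _) n₁)
        (nsmul_mem (mono_memP hZ _) n₂)) (hgood h5)
  -- the imprimitive case
  have himpr : (∃ (N : Subgroup G) (a b : N →* ℂˣ), Imp η N a b ∧ a ≠ b) →
      Deligne (fun _ => ℓ) P c (fun g => algebraMap ℚ E (ρ.character g)) := by
    rintro ⟨N, a, b, himp, hab⟩
    obtain ⟨Z, ω, hZ, h2⟩ := imp_decomp hηh himp hab
    obtain ⟨k, h3, h4⟩ := h2 _ (virt_of_closure hb)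
    obtain ⟨n, hn⟩ := nat_closure (fun χ hχ => himp.nat hχ) hb
    have e1 : k = n := by
      rw [hn] at h3; exact_mod_cast h3.symm
    rw [e1, natCast_zsmul] at h4
    exact finish hζ hL' hP hmon' τ₀ (nsmul_mem (mono_memP hZ _) n) (hgood h4)
  have hsupp : ∀ (U : Subgroup G) (ψ : U →* ℂˣ), pr η (ind U (lc ψ)) = 0 ↔
      pr η (ind U (lc ψ⁻¹)) = 0 := by
    intro U ψ
    have h1 := supp_conj hζ hL hP hmon τ₀ U ψ
    rw [hθe, pr_mul_left, pr_mul_left] at h1
    constructor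
    · intro h
      have h2 := h1.mp (by rw [h, mul_zero])
      exact (mul_eq_zero.mp h2).resolve_left hdC
    · intro h
      have h2 := h1.mpr (by rw [h, mul_zero])
      exact (mul_eq_zero.mp h2).resolve_left hdC
  obtain ⟨D, hD⟩ := hηH.exists_det hr'
  by_cases hne : ∃ g, D g ≠ 1
  · have hreal : ∀ g, D g ≠ 1 → η g = 0 ∧ η (g * g) = 2 := by
      intro g hg
      refine real_out hηH hr' hsupp g ?_
      rw [← hD]
      intro h2
      exact hg (Units.ext h2)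
    rcases real_case hηH hr' hD hreal hne with hs | hs
    · exact hsplit hs
    · exact himpr hs
  · have hdd : ∀ g, dd η g = 1 := by
      intro g
      by_contra h2
      apply hne
      refine ⟨g, fun h3 => h2 ?_⟩
      rw [← hD, h3, Units.val_one]
    obtain ⟨k, hk, hgood'⟩ := rat_decomp ρ hηH hr' hdd
    have hk0 : 0 ≤ k := by
      have h3 := order_prod hL (irrF G) subset_rfl (fun χ => (m χ : ℤ))
      have h4 : (fun s => ∏ᶠ χ ∈ Irr G, ℓ χ s ^ m χ)
          = fun z => ∏ χ ∈ irrF G, ℓ χ z ^ ((m χ : ℕ) : ℤ) := by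
        funext s
        rw [finprod_irr (fun χ => ℓ χ s ^ m χ)]
        exact Finset.prod_congr rfl fun χ _ => by rw [zpow_natCast]
      rw [h4, h3.2] at hpole
      have h5 := pr_ords (l := ℓ) (c := c) (m := fun χ => (m χ : ℤ))
        (fun χ hχ => by rw [hm.pr hχ]; simp)
      rw [hθe, pr_mul_left, pr_comm, hk] at h5
      have h6 : (0 : ℤ) ≤ ∑ χ ∈ irrF G, (m χ : ℤ) * ords ℓ c χ := by exact_mod_cast hpole
      have h7 : (d : ℤ) * (2 * k) = ∑ χ ∈ irrF G, (m χ : ℤ) * ords ℓ c χ := by exact_mod_cast h5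
      have h8 : (0 : ℤ) < d := by exact_mod_cast Nat.pos_of_ne_zero hd
      by_contra hcon
      push Not at hcon
      nlinarith
    obtain ⟨n, rfl⟩ := Int.eq_ofNat_of_zero_le hk0
    refine finish hζ hL' hP hmon' τ₀ (a := (n : ℕ) • ind (⊥ : Subgroup G) (fun _ => (1 : ℂ))) ?_ ?_
    · refine nsmul_mem ?_ n
      have h3 := mono_memP (G := G) hyper_bot (1 : (⊥ : Subgroup G) →* ℂˣ)
      exact h3
    · rw [hF, ← natCast_zsmul]
      exact hgood hgood'

/-- descent to rational multiples of a rational period -/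
theorem descend [NumberField E]
    (hP : ∀ τ, ∀ χ ∈ Irr G, P τ χ ≠ 0)
    {V : Type} [AddCommGroup V] [Module ℚ V] [FiniteDimensional ℚ V] (ρ : Representation ℚ G V)
    (hD : Deligne (fun _ => ℓ) P c (fun g => algebraMap ℚ E (ρ.character g)))
    {m : (G → ℂ) → ℕ} (hm : IsDecomp (fun g => ((ρ.character g : ℚ) : ℂ)) m)
    {Ω : ℂ} {u : E} (hΩ : ∀ τ : E →+* ℂ, ∏ᶠ χ ∈ Irr G, P τ χ ^ m χ = τ u * Ω) :
    ∃ q : ℚ, Tendsto (fun s => ∏ᶠ χ ∈ Irr G, ℓ χ s ^ m χ) (𝓝[≠] c) (𝓝 (q * Ω)) := by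
  classical
  obtain ⟨e, he⟩ := hD
  have hF : ∀ τ : E →+* ℂ, (fun g => τ (algebraMap ℚ E (ρ.character g)))
      = fun g => ((ρ.character g : ℚ) : ℂ) := by
    intro τ
    funext g
    rw [eq_ratCast, map_ratCast]
  have h1 : ∀ τ : E →+* ℂ, Tendsto (fun s => ∏ᶠ χ ∈ Irr G, ℓ χ s ^ m χ) (𝓝[≠] c)
      (𝓝 (τ (e * u) * Ω)) := by
    intro τ
    have h2 := he τ m (by rw [hF]; exact hm)
    rw [hΩ, ← mul_assoc, ← map_mul] at h2
    exact h2
  obtain ⟨τ₀⟩ : Nonempty (E →+* ℂ) := inferInstance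
  have hΩ0 : Ω ≠ 0 := by
    intro h0
    have h2 := hΩ τ₀
    rw [h0, mul_zero, finprod_irr (fun χ => P τ₀ χ ^ m χ)] at h2
    exact Finset.prod_ne_zero_iff.mpr (fun χ hχ => pow_ne_zero _ (hP τ₀ χ (mem_irrF.mp hχ))) h2
  obtain ⟨q, hq⟩ := rat_of_embeddings (e * u) (τ₀ (e * u)) (fun τ => by
    have h2 := tendsto_nhds_unique (h1 τ) (h1 τ₀)
    exact mul_right_cancel₀ hΩ0 h2)
  refine ⟨q, ?_⟩
  have h2 := h1 τ₀
  rw [← hq, eq_ratCast, map_ratCast] at h2
  exact h2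

end Pool.Agent.U157.DL
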