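import Mathlib
import Pool.Agent.U157.DL.RatDiv

/-!
# Deligne's conjecture for rational Artin twists: reduced orders, the central point
-/

set_option autoImplicit false
set_option linter.unusedSectionVars false

namespace Pool.Agent.U157.DL

open Pool.Agent.R389 Pool.Agent.H302R2 Pool.Agent.H302R3 Pool.Agent.H541R3.ART Pool.Agent.W446.AS
  Filter Topology

/-- a function with a functional equation `s ↔ 2 c - s` of sign one has an even order at `c` -/
theorem even_order {f γ : ℂ → ℂ} {c : ℂ} (hf : MeromorphicAt f c)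
    (hne : meromorphicOrderAt f c ≠ ⊤) (hγ : ContinuousAt γ c) (h1 : γ c = 1)
    (h : ∀ᶠ s in 𝓝[≠] c, f s = γ s * f (2 * c - s)) :
    Even (meromorphicOrderAt f c).untop₀ := by
  obtain ⟨g, hg, hg0, hgf⟩ := (meromorphicOrderAt_ne_top_iff hf).mp hne
  set n : ℤ := (meromorphicOrderAt f c).untop₀ with hn
  have hmap : Tendsto (fun s : ℂ => 2 * c - s) (𝓝[≠] c) (𝓝[≠] c) := by
    refine tendsto_nhdsWithin_iff.mpr ⟨?_, ?_⟩
    · have h2 : Tendsto (fun s : ℂ => 2 * c - s) (𝓝 c) (𝓝 (2 * c - c)) :=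
        (continuous_const.sub continuous_id).tendsto c
      have h3 : 2 * c - c = c := by ring
      rw [h3] at h2
      exact h2.mono_left nhdsWithin_le_nhds
    · filter_upwards [self_mem_nhdsWithin] with s hs
      intro h4
      apply hs
      have h5 : 2 * c - s = c := h4
      change s = c
      linear_combination -h5
  have h2 : ∀ᶠ s in 𝓝[≠] c, g s = (-1) ^ n * (γ s * g (2 * c - s)) := by
    filter_upwards [h, hgf, hmap.eventually hgf, self_mem_nhdsWithin] with s h3 h4 h5 h6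
    have h7 : s - c ≠ 0 := sub_ne_zero.mpr h6
    have h8 : (2 * c - s - c) ^ n = (-1) ^ n * (s - c) ^ n := by
      rw [← mul_zpow]
      congr 1
      ring
    rw [h4, h5, h8, smul_eq_mul, smul_eq_mul] at h3
    have h9 : (s - c) ^ n ≠ 0 := zpow_ne_zero _ h7
    apply mul_left_cancel₀ h9
    rw [h3]
    ring
  have h3 : Tendsto g (𝓝[≠] c) (𝓝 (g c)) := hg.continuousAt.tendsto.mono_left nhdsWithin_le_nhds
  have h4 : Tendsto (fun s => (-1 : ℂ) ^ n * (γ s * g (2 * c - s))) (𝓝[≠] c)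
      (𝓝 ((-1) ^ n * (1 * g c))) := by
    refine (Tendsto.mul ?_ (h3.comp hmap)).const_mul _
    rw [← h1]
    exact hγ.tendsto.mono_left nhdsWithin_le_nhds
  have h5 : g c = (-1) ^ n * (1 * g c) := tendsto_nhds_unique (h3.congr' h2) h4
  have h6 : ((-1 : ℂ)) ^ n = 1 := by
    have h7 : (1 - (-1 : ℂ) ^ n) * g c = 0 := by linear_combination h5
    rcases mul_eq_zero.mp h7 with h8 | h8
    · linear_combination -h8
    · exact absurd h8 hg0
  by_contra hcon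
  rw [Int.not_even_iff_odd] at hcon
  rw [hcon.neg_one_zpow] at h6
  norm_num at h6

variable {G : Type} [Group G] [Finite G] {E : Type} [Field E]
  {L : (E →+* ℂ) → (G → ℂ) → ℂ → ℂ} {P : (E →+* ℂ) → (G → ℂ) → ℂ} {c : ℂ}

/-- all characters, if the function of the orders is constant on the kernel of an
abelian-by-nilpotent quotient -/
theorem all_an {ζ : E} (hζ : IsPrimitiveRoot ζ (Monoid.exponent G))
    (hL : ∀ τ, ∀ χ ∈ Irr G, MeromorphicAt (L τ χ) c ∧ meromorphicOrderAt (L τ χ) c ≠ ⊤)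
    (hP : ∀ τ, ∀ χ ∈ Irr G, P τ χ ≠ 0)
    (hmon : ∀ (U : Subgroup G) (ψ : U →* Eˣ),
      Deligne L P c (ind U (fun u => ((ψ u : Eˣ) : E)))) (τ₀ : E →+* ℂ)
    (K : Subgroup G) [K.Normal] (hQ : AN (G ⧸ K))
    (hK : ∀ k ∈ K, (theta (ords (L τ₀) c) : G → ℂ) k = (theta (ords (L τ₀) c) : G → ℂ) 1)
    {F : G → E} (hF : (fun g => τ₀ (F g)) ∈ AddSubmonoid.closure (Irr G)) :
    Deligne L P c F := by
  classical
  set f : G → ℂ := fun g => τ₀ (F g) with hf
  obtain ⟨fa, ea, ha1, ha2⟩ := monA_del hζ hL hP hmon τ₀ (inv_mem K hQ hF)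
  have hVirt : Virt f := virt_of_closure hF
  have hnew : f - inv K f ∈ NewA K := by
    refine relative_brauer K (sub_mem (S := AddSubgroup (G → ℂ)) hVirt (virt_inv K hVirt)) ?_
    have h1 : inv K (f - inv K f) = inv K f - inv K (inv K f) := map_sub (invHom K) _ _
    rw [h1, inv_of_const K (f := inv K f) (fun g k hk => inv_mul_mem K f g hk), sub_self]
  have h2 := new_twistT K 1 hnew
  have hback : twHom 1 (f - inv K f) = f - inv K f := by
    funext g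
    change (f - inv K f) g * (((1 : G →* ℂˣ) g : ℂˣ) : ℂ) = (f - inv K f) g
    simp
  rw [AddSubgroup.mem_comap, hback] at h2
  obtain ⟨fs, es, hs1, -, hs2⟩ := new_unitT hζ hL hP (fun U ψ _ => hmon U ψ) τ₀ (lam := 1)
    (fun k hk => by rw [hK k hk]; simp) h2
  have h3 : F = fa + fs := by
    funext g
    apply τ₀.injective
    rw [Pi.add_apply, map_add, ha1, hs1]
    change f g = inv K f g + (f g - inv K f g)
    ring
  rw [h3]
  exact (ha2.add hL hP hs2).deligne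

variable {ℓ : (G → ℂ) → ℂ → ℂ}

/-- orders divisible by `d` -/
lemma exists_div {d : ℕ}
    (h : ∀ χ ∈ Irr G, ∃ k : ℤ, meromorphicOrderAt (ℓ χ) c = (((d : ℤ) * k : ℤ) : WithTop ℤ)) :
    ∃ η : G → ℂ, Virt η ∧ ∀ g, (theta (ords ℓ c) : G → ℂ) g = d * η g := by
  classical
  choose! k hk using h
  refine ⟨theta k, theta_virt _, fun g => ?_⟩
  unfold theta
  rw [Finset.mul_sum]
  refine Finset.sum_congr rfl fun χ hχ => ?_
  have h1 : ords ℓ c χ = d * k χ := by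
    unfold ords
    rw [hk χ (mem_irrF.mp hχ)]
    rfl
  rw [h1]
  push_cast
  ring

/-- the value at one of the quotient -/
lemma div_one (hL : ∀ χ ∈ Irr G, MeromorphicAt (ℓ χ) c ∧ meromorphicOrderAt (ℓ χ) c ≠ ⊤)
    {deg : (G → ℂ) → ℕ} (hdeg : ∀ χ ∈ Irr G, χ 1 = deg χ)
    (hθ : IsHeilbronn (theta (ords ℓ c) : G → ℂ)) {d b : ℕ} (hd : d ≠ 0) {η : G → ℂ}
    (hV : Virt η) (hη : ∀ g, (theta (ords ℓ c) : G → ℂ) g = d * η g)
    (hz : meromorphicOrderAt (fun s => ∏ᶠ χ ∈ Irr G, ℓ χ s ^ deg χ) c < (((d : ℤ) * b : ℤ) : WithTop ℤ)) :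
    ∃ r : ℕ, η 1 = r ∧ r < b := by
  obtain ⟨r, hr⟩ := (heil_div hθ hV hd hη).exists_deg
  refine ⟨r, hr, ?_⟩
  rw [top_order hL deg] at hz
  have h1 := theta_one_eq (c := c) (l := ℓ) hdeg
  rw [hη, hr] at h1
  have h2 : (d : ℤ) * r = ∑ χ ∈ irrF G, (deg χ : ℤ) * ords ℓ c χ := by exact_mod_cast h1
  rw [← h2] at hz
  have h3 : (d : ℤ) * r < d * b := by exact_mod_cast hz
  have h4 : (0 : ℤ) < d := by exact_mod_cast Nat.pos_of_ne_zero hd
  have h5 : (r : ℤ) < b := lt_of_mul_lt_mul_left h3 h4.le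
  exact_mod_cast h5

/-- a single special character -/
lemma theta_single {χ₀ : G → ℂ} (hχ₀ : χ₀ ∈ Irr G)
    (h : ∀ χ ∈ Irr G, χ ≠ χ₀ → meromorphicOrderAt (ℓ χ) c = 0) :
    ∀ g, (theta (ords ℓ c) : G → ℂ) g = (ords ℓ c χ₀ : ℂ) * χ₀ g := by
  classical
  intro g
  unfold theta
  rw [Finset.sum_eq_single χ₀]
  · intro χ hχ hne
    have h1 : ords ℓ c χ = 0 := by
      unfold ords
      rw [h χ (mem_irrF.mp hχ) hne]
      rfl
    rw [h1]
    simp
  · intro hn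
    exact absurd (mem_irrF.mpr hχ₀) hn

/-- **Rational coefficients, reduced order at most two.** -/
theorem rat_reduced [NumberField E] {ζ : E} (hζ : IsPrimitiveRoot ζ (Monoid.exponent G))
    (hL : ∀ χ ∈ Irr G, MeromorphicAt (ℓ χ) c ∧ meromorphicOrderAt (ℓ χ) c ≠ ⊤)
    (hP : ∀ τ, ∀ χ ∈ Irr G, P τ χ ≠ 0)
    (hmon : ∀ (U : Subgroup G) (ψ : U →* Eˣ),
      Deligne (fun _ => ℓ) P c (ind U (fun u => ((ψ u : Eˣ) : E))))
    {deg : (G → ℂ) → ℕ} (hdeg : ∀ χ ∈ Irr G, χ 1 = deg χ)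
    (hs : ∑ᶠ χ ∈ {χ ∈ Irr G | meromorphicOrderAt (ℓ χ) c ≠ 0}, deg χ ≤ 2)
    {V : Type} [AddCommGroup V] [Module ℚ V] [FiniteDimensional ℚ V] (ρ : Representation ℚ G V)
    {m : (G → ℂ) → ℕ} (hm : IsDecomp (cch ρ) m) :
    Deligne (fun _ => ℓ) P c (fun g => algebraMap ℚ E (ρ.character g)) := by
  classical
  obtain ⟨τ₀⟩ : Nonempty (E →+* ℂ) := inferInstance
  have hL' : ∀ τ : E →+* ℂ, ∀ χ ∈ Irr G, MeromorphicAt ((fun _ : E →+* ℂ => ℓ) τ χ) c ∧
      meromorphicOrderAt ((fun _ : E →+* ℂ => ℓ) τ χ) c ≠ ⊤ := fun _ => hL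
  have hF : (fun g => τ₀ (algebraMap ℚ E (ρ.character g))) = cch ρ := by
    funext g
    rw [eq_ratCast, map_ratCast]
    rfl
  have hb : (fun g => τ₀ (algebraMap ℚ E (ρ.character g))) ∈ AddSubmonoid.closure (Irr G) := by
    rw [hF]; exact cch_mem ρ
  have hθH : IsHeilbronn (theta (ords ℓ c) : G → ℂ) := heil_ords hζ hL' hmon τ₀
  have hpos : ∀ χ ∈ Irr G, 1 ≤ deg χ := by
    intro χ hχ
    obtain ⟨k, hk, hk1⟩ := irr_deg_pos hχ
    rw [hdeg χ hχ] at hk1
    have : deg χ = k := by exact_mod_cast hk1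
    omega
  have hsum : ∑ᶠ χ ∈ {χ ∈ Irr G | meromorphicOrderAt (ℓ χ) c ≠ 0}, deg χ
      = ∑ χ ∈ (irrF G).filter (fun χ => meromorphicOrderAt (ℓ χ) c ≠ 0), deg χ := by
    refine finsum_mem_eq_sum_of_inter_support_eq _ ?_
    congr 1
    ext χ
    simp [mem_irrF]
  rw [hsum] at hs
  by_cases h2 : ∃ χ₀ ∈ Irr G, meromorphicOrderAt (ℓ χ₀) c ≠ 0 ∧ 2 ≤ deg χ₀
  · obtain ⟨χ₀, hχ₀, h0, hd2⟩ := h2
    have hmem : χ₀ ∈ (irrF G).filter (fun χ => meromorphicOrderAt (ℓ χ) c ≠ 0) :=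
      Finset.mem_filter.mpr ⟨mem_irrF.mpr hχ₀, h0⟩
    have hother : ∀ χ ∈ Irr G, χ ≠ χ₀ → meromorphicOrderAt (ℓ χ) c = 0 := by
      intro χ hχ hne
      by_contra hcon
      have hmem' : χ ∈ ((irrF G).filter (fun χ => meromorphicOrderAt (ℓ χ) c ≠ 0)).erase χ₀ :=
        Finset.mem_erase.mpr ⟨hne, Finset.mem_filter.mpr ⟨mem_irrF.mpr hχ, hcon⟩⟩
      have h3 := Finset.add_sum_erase _ deg hmem
      have h4 := Finset.single_le_sum (f := deg) (fun _ _ => Nat.zero_le _) hmem'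
      have h5 := hpos χ hχ
      omega
    have hd2' : deg χ₀ = 2 := by
      have h4 := Finset.single_le_sum (f := deg) (fun _ _ => Nat.zero_le _) hmem
      omega
    have hsing := theta_single (ℓ := ℓ) (c := c) hχ₀ hother
    obtain ⟨r, hr⟩ := hθH.exists_deg
    rw [hsing, hdeg χ₀ hχ₀, hd2'] at hr
    have hr' : ords ℓ c χ₀ * 2 = r := by exact_mod_cast hr
    have hn0 : 0 ≤ ords ℓ c χ₀ := by omega
    obtain ⟨d, hd⟩ := Int.eq_ofNat_of_zero_le hn0
    have hdne : d ≠ 0 := by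
      rintro rfl
      apply h0
      have h3 : ords ℓ c χ₀ = 0 := by simpa using hd
      unfold ords at h3
      rcases WithTop.untop₀_eq_zero.mp h3 with h4 | h4
      · exact h4
      · exact absurd h4 (hL χ₀ hχ₀).2
    refine main_rat_div hζ hL hP hmon (η := χ₀) (AddSubgroup.subset_closure hχ₀) hdne
      (fun g => by rw [hsing, hd]; simp) (r := 2) (by rw [hdeg χ₀ hχ₀, hd2']) le_rfl ρ hm ?_
    have h3 := order_prod hL (irrF G) subset_rfl (fun χ => (m χ : ℤ))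
    have h4 : (fun s => ∏ᶠ χ ∈ Irr G, ℓ χ s ^ m χ)
        = fun z => ∏ χ ∈ irrF G, ℓ χ z ^ ((m χ : ℕ) : ℤ) := by
      funext s
      rw [finprod_irr (fun χ => ℓ χ s ^ m χ)]
      exact Finset.prod_congr rfl fun χ _ => by rw [zpow_natCast]
    rw [h4, h3.2]
    have h5 : ∑ χ ∈ irrF G, (m χ : ℤ) * ords ℓ c χ = (m χ₀ : ℤ) * ords ℓ c χ₀ := by
      refine Finset.sum_eq_single χ₀ (fun χ hχ hne => ?_) (fun hn => absurd (mem_irrF.mpr hχ₀) hn)
      have h6 : ords ℓ c χ = 0 := by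
        unfold ords
        rw [hother χ (mem_irrF.mp hχ) hne]
        rfl
      rw [h6, mul_zero]
    rw [h5]
    exact_mod_cast mul_nonneg (Int.natCast_nonneg _) hn0
  · push Not at h2
    have hK : ∀ k ∈ commutator G, (theta (ords ℓ c) : G → ℂ) k = (theta (ords ℓ c) : G → ℂ) 1 := by
      refine theta_of_kernel (commutator G) (fun χ hχ h0 k hk => ?_)
      have h3 := h2 χ hχ h0
      have h4 := hpos χ hχ
      have h5 : deg χ = 1 := by omega
      obtain ⟨lam, hlam⟩ := irr_deg_one hχ (by rw [hdeg χ hχ, h5]; simp)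
      rw [hlam, hlam, lin_comm lam hk, map_one]
    refine all_an hζ hL' hP hmon τ₀ (commutator G) ?_ hK hb
    refine an_of_comm ?_
    intro a b
    obtain ⟨x, rfl⟩ := QuotientGroup.mk_surjective a
    obtain ⟨y, rfl⟩ := QuotientGroup.mk_surjective b
    rw [← QuotientGroup.mk_mul, ← QuotientGroup.mk_mul, QuotientGroup.eq]
    have h3 := Subgroup.commutator_mem_commutator (H₁ := (⊤ : Subgroup G)) (H₂ := ⊤)
      (Subgroup.mem_top y⁻¹) (Subgroup.mem_top x⁻¹)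
    rw [commutatorElement_def] at h3
    have h4 : (x * y)⁻¹ * (y * x) = y⁻¹ * x⁻¹ * y⁻¹⁻¹ * x⁻¹⁻¹ := by group
    rw [h4]
    exact h3

end Pool.Agent.U157.DL
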